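import Pool.Agent.V11270.HdL.Slices
import Pool.Agent.V11270.HdL.Dim0

/-!
# MP_7a8bd8: positivity of the Hausdorff dimension holds exactly for `n ≥ 2`
-/

set_option autoImplicit false

open Metric Set Filter Topology MeasureTheory Module
open scoped ENNReal NNReal

namespace Pool.Agent.Results.MP_7a8bd8_nt.PositiveDimension

open Pool.Agent.V11270.HdL

/-- The product of a real `m × n` matrix (a point of `ℝ^(m × n)`) and an integer vector. -/
def mulV {m n : ℕ} (A : Fin m → Fin n → ℝ) (q : Fin n → ℤ) : Fin m → ℝ :=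
  fun i => ∑ j, A i j * (q j : ℝ)

/-- A real `m × n` matrix `A` is a Liouville matrix: `A q ≠ p` for all integer `(q, p) ≠ (0, 0)`
and for every `N > 0` there are integer vectors `p` and `q` with `‖q‖ ≥ 2` and
`‖A q - p‖ < ‖q‖ ^ (-N)` (supremum norms). -/
def IsLiouville {m n : ℕ} (A : Fin m → Fin n → ℝ) : Prop :=
  (∀ (q : Fin n → ℤ) (p : Fin m → ℤ), ¬ (q = 0 ∧ p = 0) → mulV A q ≠ fun i => (p i : ℝ)) ∧
  ∀ N : ℝ, 0 < N → ∃ (q : Fin n → ℤ) (p : Fin m → ℤ), 2 ≤ ‖q‖ ∧
    ‖mulV A q - fun i => (p i : ℝ)‖ < ‖q‖ ^ (-N)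

/-- The set `E(U, (f_k))`. -/
def E {m n : ℕ} (U : Set (Fin m → Fin n → ℝ))
    (f : ℕ → (Fin m → Fin n → ℝ) → (Fin m → Fin n → ℝ)) : Set (Fin m → Fin n → ℝ) :=
  {A | A ∈ U ∧ IsLiouville A ∧ ∀ k, IsLiouville (f k A)}

/-- The property of the pair `(m, n)` asked for in Q1. -/
def HasProperty (m n : ℕ) : Prop :=
  ∀ U : Set (Fin m → Fin n → ℝ), IsOpen U → U.Nonempty →
    ∀ f : ℕ → (Fin m → Fin n → ℝ) → (Fin m → Fin n → ℝ),
      (∀ k, ContinuousOn (f k) U) → (∀ k, InjOn (f k) U) → 0 < dimH (E U f)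

/-- The sequence of maps with the identity added. -/
def withId {m n : ℕ} (f : ℕ → (Fin m → Fin n → ℝ) → (Fin m → Fin n → ℝ)) :
    ℕ → (Fin m → Fin n → ℝ) → (Fin m → Fin n → ℝ)
  | 0 => id
  | k + 1 => f k

theorem continuous_mulV {m n : ℕ} (q : Fin n → ℤ) :
    Continuous fun A : Fin m → Fin n → ℝ => mulV A q := by
  unfold mulV
  fun_prop

/-- The open sets in condition (2). -/
def ON (m n N : ℕ) : Set (Fin m → Fin n → ℝ) :=
  ⋃ (q : Fin n → ℤ) (p : Fin m → ℤ) (_ : 2 ≤ ‖q‖),
    {A | ‖mulV A q - fun i => (p i : ℝ)‖ < ‖q‖ ^ (-(N : ℝ))}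

theorem isOpen_ON (m n N : ℕ) : IsOpen (ON m n N) := by
  refine isOpen_iUnion fun q => isOpen_iUnion fun p => isOpen_iUnion fun _ => ?_
  exact isOpen_lt ((continuous_mulV q).sub continuous_const).norm continuous_const

/-- Matrices with a rational column lie in `ON`. -/
theorem mem_ON {m n : ℕ} (N : ℕ) (j : Fin n) (b : Fin m → ℚ) (B : Fin m → Fin n → ℝ)
    (hB : ∀ i, B i j = b i) : B ∈ ON m n N := by
  classical
  set D : ℕ := ∏ i, (b i).den with hD
  have hD1 : 1 ≤ D := Finset.prod_pos fun i _ => (b i).den_pos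
  have hdiv : ∀ i, ∃ z : ℤ, (z : ℚ) = (D : ℚ) * b i := by
    intro i
    obtain ⟨c, hc⟩ : (b i).den ∣ D := Finset.dvd_prod_of_mem _ (Finset.mem_univ i)
    refine ⟨c * (b i).num, ?_⟩
    have h1 : (b i) * (b i).den = (b i).num := Rat.mul_den_eq_num (b i)
    rw [hc]
    push_cast
    rw [← h1]
    ring
  choose z hz using hdiv
  simp only [ON, mem_iUnion]
  have hnorm : 2 ≤ ‖(Pi.single j (2 * (D : ℤ)) : Fin n → ℤ)‖ := by
    rw [Pi.norm_single, Int.norm_eq_abs]
    have h2 : (1 : ℝ) ≤ D := by exact_mod_cast hD1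
    push_cast
    rw [abs_of_nonneg (by positivity)]
    linarith
  refine ⟨Pi.single j (2 * (D : ℤ)), fun i => 2 * z i, hnorm, ?_⟩
  have h0 : (mulV B (Pi.single j (2 * (D : ℤ))) - fun i => ((2 * z i : ℤ) : ℝ)) = 0 := by
    ext i
    rw [Pi.sub_apply, Pi.zero_apply]
    unfold mulV
    rw [Finset.sum_eq_single j]
    · rw [hB, Pi.single_eq_same]
      have h1 : ((z i : ℤ) : ℝ) = (D : ℝ) * (b i : ℝ) := by exact_mod_cast hz i
      push_cast
      rw [h1]
      ring
    · intro l _ hl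
      rw [Pi.single_eq_of_ne hl]
      simp
    · intro h
      exact absurd (Finset.mem_univ _) h
  show ‖_‖ < _
  rw [h0, norm_zero]
  exact Real.rpow_pos_of_pos (by linarith) _

/-- A point satisfying all the generic conditions is a Liouville matrix. -/
theorem isLiouville_of {m n : ℕ} {A : Fin m → Fin n → ℝ}
    (h1 : ∀ (q : Fin n → ℤ), q ≠ 0 → ∀ p : Fin m → ℤ, mulV A q ≠ fun i => (p i : ℝ))
    (h2 : ∀ N : ℕ, A ∈ ON m n N) : IsLiouville A := by
  refine ⟨?_, ?_⟩
  · intro q p hqp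
    by_cases hq : q = 0
    · subst hq
      have hp : p ≠ 0 := fun h => hqp ⟨rfl, h⟩
      intro h
      apply hp
      ext i
      have := congrFun h i
      simp [mulV] at this
      exact_mod_cast this.symm
    · exact h1 q hq p
  · intro N hN
    have h3 := h2 ⌈N⌉₊
    simp only [ON, mem_iUnion] at h3
    obtain ⟨q, p, hq, hlt⟩ := h3
    refine ⟨q, p, hq, lt_of_lt_of_le hlt ?_⟩
    exact Real.rpow_le_rpow_of_exponent_le (by linarith) (by linarith [Nat.le_ceil N])

section main

variable {m n : ℕ}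

theorem main (hm : 1 ≤ m) (hn : 2 ≤ n) {U : Set (Fin m → Fin n → ℝ)} (hU : IsOpen U)
    (hUne : U.Nonempty) {f : ℕ → (Fin m → Fin n → ℝ) → (Fin m → Fin n → ℝ)}
    (hf : ∀ k, ContinuousOn (f k) U) (hi : ∀ k, InjOn (f k) U) : 1 ≤ dimH (E U f) := by
  classical
  set i0 : Fin m := ⟨0, hm⟩ with hi0
  set j0 : Fin n := ⟨0, by omega⟩ with hj0
  set j1 : Fin n := ⟨1, by omega⟩ with hj1
  have hj : j0 ≠ j1 := by
    intro h
    have := congrArg Fin.val h
    simp [hj0, hj1] at this
  let c : (Fin m → Fin n → ℝ) →ₗ[ℝ] ℝ :=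
    { toFun := fun A => A i0 j0
      map_add' := fun _ _ => rfl
      map_smul' := fun _ _ => rfl }
  have hcv : ∀ A, c A = A i0 j0 := fun A => rfl
  set e : Fin m → Fin n → ℝ := Pi.single i0 (Pi.single j0 1) with he
  have hce : c e = 1 := by
    rw [hcv, he]
    simp
  have hc0 : c ≠ 0 := by
    intro h
    rw [h] at hce
    simp at hce
  have hcc : Continuous c := c.continuous_of_finiteDimensional
  set g := withId f with hg
  have hgc : ∀ k, ContinuousOn (g k) U := by
    intro k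
    cases k with
    | zero => exact continuousOn_id
    | succ k => exact hf k
  have hgi : ∀ k, InjOn (g k) U := by
    intro k
    cases k with
    | zero => exact injOn_id _
    | succ k => exact hi k
  -- the linear functional attached to `q`
  let φ : (Fin n → ℤ) → (Fin m → Fin n → ℝ) →ₗ[ℝ] ℝ := fun q =>
    { toFun := fun A => mulV A q i0
      map_add' := fun A B => by
        simp only [mulV, Pi.add_apply, add_mul]
        exact Finset.sum_add_distrib
      map_smul' := fun a A => by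
        simp only [mulV, Pi.smul_apply, smul_eq_mul, RingHom.id_apply]
        rw [Finset.mul_sum]
        exact Finset.sum_congr rfl fun j _ => mul_assoc _ _ _ }
  have hφv : ∀ q A, φ q A = mulV A q i0 := fun q A => rfl
  have hφ0 : ∀ q, q ≠ 0 → φ q ≠ 0 := by
    intro q hq h
    obtain ⟨j, hjq⟩ := Function.ne_iff.mp hq
    have h1 := LinearMap.congr_fun h (Pi.single i0 (Pi.single j 1))
    rw [hφv] at h1
    unfold mulV at h1
    rw [Finset.sum_eq_single j] at h1
    · rw [Pi.single_eq_same, Pi.single_eq_same, one_mul] at h1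
      apply hjq
      have h2 : ((q j : ℤ) : ℝ) = 0 := h1
      exact_mod_cast h2
    · intro l _ hl
      rw [Pi.single_eq_same, Pi.single_eq_of_ne hl, zero_mul]
    · intro h
      exact absurd (Finset.mem_univ _) h
  -- the countable set of exceptional slices
  let T : ℕ × {q : Fin n → ℤ // q ≠ 0} × ℤ → Set ℝ := fun a =>
    {t : ℝ | ∃ D : Set (LinearMap.ker c), IsOpen D ∧ D.Nonempty ∧
      (∀ y ∈ D, t • e + (y : Fin m → Fin n → ℝ) ∈ U) ∧
      ∀ y ∈ D, φ a.2.1.1 (g a.1 (t • e + (y : Fin m → Fin n → ℝ))) = (a.2.2 : ℝ)}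
  have hT : ∀ a, (T a).Countable := fun a =>
    countable_slices hc0 (hφ0 _ a.2.1.2) hce (hgc a.1) (hgi a.1) _
  set C : Set ℝ := ⋃ a, T a with hC
  have hCc : C.Countable := countable_iUnion hT
  -- every other slice meets `E`
  have hmeet : (c '' U) \ C ⊆ c '' (E U f) := by
    rintro t ⟨⟨A0, hA0U, hA0t⟩, htC⟩
    let S : Set (LinearMap.ker c) := {y | t • e + (y : Fin m → Fin n → ℝ) ∈ U}
    have hmap : Continuous fun y : LinearMap.ker c => t • e + (y : Fin m → Fin n → ℝ) :=
      continuous_const.add continuous_subtype_val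
    have hSo : IsOpen S := hU.preimage hmap
    have hker : ∀ A : Fin m → Fin n → ℝ, c A = t → c (A - t • e) = 0 := by
      intro A hA
      rw [map_sub, map_smul, hce, hA]
      simp
    have hSne : S.Nonempty := by
      refine ⟨⟨A0 - t • e, hker A0 hA0t⟩, ?_⟩
      show t • e + (A0 - t • e) ∈ U
      rwa [add_sub_cancel]
    have : LocallyCompactSpace (LinearMap.ker c) := inferInstance
    have hlc : LocallyCompactSpace S := hSo.locallyCompactSpace
    -- the open dense sets
    let G : ((ℕ × {q : Fin n → ℤ // q ≠ 0} × (Fin m → ℤ)) ⊕ (ℕ × ℕ)) → Set S := fun s =>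
      match s with
      | Sum.inl (k, q, p) => {y | mulV (g k (t • e + ((y : LinearMap.ker c) : Fin m → Fin n → ℝ)))
          q.1 ≠ fun i => (p i : ℝ)}
      | Sum.inr (k, N) => {y | g k (t • e + ((y : LinearMap.ker c) : Fin m → Fin n → ℝ)) ∈ ON m n N}
    have hgS : ∀ k, Continuous fun y : S =>
        g k (t • e + ((y : LinearMap.ker c) : Fin m → Fin n → ℝ)) := by
      intro k
      refine (hgc k).comp_continuous (hmap.comp continuous_subtype_val) ?_
      intro y
      exact y.2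
    have hGo : ∀ s, IsOpen (G s) := by
      rintro (⟨k, q, p⟩ | ⟨k, N⟩)
      · exact isOpen_ne_fun ((continuous_mulV q.1).comp (hgS k)) continuous_const
      · exact (isOpen_ON m n N).preimage (hgS k)
    have hGd : ∀ s, Dense (G s) := by
      intro s
      by_contra hnd
      rw [dense_iff_inter_open] at hnd
      push Not at hnd
      obtain ⟨W, hWo, hWne, hWG⟩ := hnd
      -- the corresponding open set of the kernel
      set D : Set (LinearMap.ker c) := Subtype.val '' W with hD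
      have hDo : IsOpen D := hSo.isOpenMap_subtype_val W hWo
      have hDne : D.Nonempty := hWne.image _
      have hDU : ∀ y ∈ D, t • e + (y : Fin m → Fin n → ℝ) ∈ U := by
        rintro _ ⟨y, -, rfl⟩
        exact y.2
      rcases s with ⟨k, q, p⟩ | ⟨k, N⟩
      · apply htC
        rw [hC, mem_iUnion]
        refine ⟨(k, q, p i0), D, hDo, hDne, hDU, ?_⟩
        rintro _ ⟨y, hy, rfl⟩
        have h1 : y ∉ G (Sum.inl (k, q, p)) := fun h => by
          have : y ∈ W ∩ G (Sum.inl (k, q, p)) := ⟨hy, h⟩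
          rw [hWG] at this
          exact this
        have h2 : mulV (g k (t • e + ((y : LinearMap.ker c) : Fin m → Fin n → ℝ)))
          q.1 = fun i => (p i : ℝ) := by
          by_contra h
          exact h1 h
        show φ q.1 _ = _
        rw [hφv, h2]
      · refine no_slice hj (O := ON m n N) (mem_ON N j0) (mem_ON N j1) hce hU (hgc k) (hgi k)
          t D hDo hDne hDU ?_
        rintro _ ⟨y, hy, rfl⟩ h
        have : y ∈ W ∩ G (Sum.inr (k, N)) := ⟨hy, h⟩
        rw [hWG] at this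
        exact this
    have hd := dense_iInter_of_isOpen hGo hGd
    have hSne' : Nonempty S := hSne.to_subtype
    obtain ⟨y, hy⟩ := hd.nonempty
    rw [mem_iInter] at hy
    refine ⟨t • e + ((y : LinearMap.ker c) : Fin m → Fin n → ℝ), ⟨y.2, ?_⟩, ?_⟩
    · have hall : ∀ k, IsLiouville (g k (t • e + ((y : LinearMap.ker c) : Fin m → Fin n → ℝ))) := by
        intro k
        refine isLiouville_of ?_ ?_
        · intro q hq p
          exact hy (Sum.inl (k, ⟨q, hq⟩, p))
        · intro N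
          exact hy (Sum.inr (k, N))
      exact ⟨hall 0, fun k => hall (k + 1)⟩
    · have h1 : c ((y : LinearMap.ker c) : Fin m → Fin n → ℝ) = 0 := (y : LinearMap.ker c).2
      rw [map_add, map_smul, hce, h1]
      simp
  -- the dimension
  have hopen : IsOpen (c '' U) := c.isOpenMap_of_finiteDimensional
    (LinearMap.surjective hc0) U hU
  have hvol : volume ((c '' U) \ C) ≠ 0 := by
    rw [measure_sdiff_null (hCc.measure_zero volume)]
    exact (hopen.measure_pos volume (hUne.image _)).ne'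
  have h1 : (1 : ℝ≥0∞) ≤ dimH ((c '' U) \ C) := by
    have h2 := le_dimH_of_hausdorffMeasure_ne_zero (s := (c '' U) \ C) (d := 1) (by
      rw [NNReal.coe_one, hausdorffMeasure_real]
      exact hvol)
    simpa using h2
  have hlip : LipschitzWith 1 c := by
    refine LipschitzWith.of_dist_le_mul fun A B => ?_
    rw [NNReal.coe_one, one_mul, hcv, hcv]
    exact (dist_le_pi_dist (A i0) (B i0) j0).trans (dist_le_pi_dist A B i0)
  exact h1.trans ((dimH_mono hmeet).trans (hlip.dimH_image_le _))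

end main

/-- For `n = 1` the set of Liouville matrices has dimension zero. -/
theorem dim_one {m : ℕ} (U : Set (Fin m → Fin 1 → ℝ))
    (f : ℕ → (Fin m → Fin 1 → ℝ) → (Fin m → Fin 1 → ℝ)) : dimH (E U f) = 0 := by
  have hiso : Isometry fun A : Fin m → Fin 1 → ℝ => fun i => A i 0 := by
    refine Isometry.of_dist_eq fun A B => ?_
    apply le_antisymm
    · rw [dist_pi_le_iff dist_nonneg]
      intro i
      exact (dist_le_pi_dist (A i) (B i) 0).trans (dist_le_pi_dist A B i)
    · rw [dist_pi_le_iff dist_nonneg]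
      intro i
      rw [dist_pi_le_iff dist_nonneg]
      intro j
      have : j = 0 := Subsingleton.elim _ _
      subst this
      exact dist_le_pi_dist (fun i => A i 0) (fun i => B i 0) i
  rw [← hiso.dimH_image]
  refine le_antisymm ?_ bot_le
  rw [← dimH_SL m]
  apply dimH_mono
  rintro _ ⟨A, ⟨-, hA, -⟩, rfl⟩
  intro N Q
  -- rational approximations of large height
  have hpos : ∀ q : ℤ, q ≠ 0 → ∃ M : ℕ, ∀ p : Fin m → ℤ,
      (1 / 2 : ℝ) ^ M ≤ ‖(q : ℝ) • (fun i => A i 0) - fun i => (p i : ℝ)‖ := by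
    intro q hq
    set v : Fin m → ℝ := (q : ℝ) • (fun i => A i 0) with hv
    have hne : 0 < ‖v - fun i => ((round (v i) : ℤ) : ℝ)‖ := by
      rw [norm_pos_iff, sub_ne_zero]
      have h1 := hA.1 (fun _ => q) (fun i => round (v i)) (fun h => hq (congrFun h.1 0))
      intro h2
      apply h1
      rw [← h2]
      ext i
      simp [mulV, hv, mul_comm]
    obtain ⟨M, hM⟩ := exists_pow_lt_of_lt_one hne (by norm_num : (1 / 2 : ℝ) < 1)
    refine ⟨M, fun p => hM.le.trans ?_⟩
    rw [pi_norm_le_iff_of_nonneg (norm_nonneg _)]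
    intro i
    refine le_trans ?_ (norm_le_pi_norm (v - fun i => (p i : ℝ)) i)
    rw [Real.norm_eq_abs, Real.norm_eq_abs]
    exact round_le (v i) (p i)
  choose! M hM using hpos
  set K : ℕ := N + 1 + ∑ q ∈ Finset.Icc (-(Q + 2 : ℤ)) (Q + 2), M q with hK
  obtain ⟨q, p, hq2, hlt⟩ := hA.2 K (by positivity)
  set q0 : ℤ := q 0 with hq0
  have hqn : ‖q‖ = |(q0 : ℝ)| := by
    apply le_antisymm
    · rw [pi_norm_le_iff_of_nonneg (abs_nonneg _)]
      intro i
      have : i = 0 := Subsingleton.elim _ _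
      subst this
      rw [Int.norm_eq_abs]
    · rw [← Int.norm_eq_abs]
      exact norm_le_pi_norm q 0
  have hval : mulV A q = (q0 : ℝ) • (fun i => A i 0) := by
    ext i
    simp [mulV, hq0, mul_comm]
  rw [hqn] at hq2 hlt
  rw [hval] at hlt
  have hq00 : q0 ≠ 0 := by
    intro h
    rw [h] at hq2
    simp at hq2
    linarith
  have habs : (0 : ℝ) < |(q0 : ℝ)| := by linarith
  rw [Real.rpow_neg habs.le, Real.rpow_natCast] at hlt
  -- large
  have hlarge : (Q + 2 : ℤ) < |q0| := by
    by_contra hle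
    push Not at hle
    have hmem : q0 ∈ Finset.Icc (-(Q + 2 : ℤ)) (Q + 2) := Finset.mem_Icc.mpr (abs_le.mp hle)
    have h1 : M q0 ≤ K := by
      have := Finset.single_le_sum (f := M) (fun _ _ => Nat.zero_le _) hmem
      omega
    have h2 := hM q0 hq00 p
    have h3 : (|(q0 : ℝ)| ^ K)⁻¹ ≤ (1 / 2 : ℝ) ^ (M q0) := by
      rw [one_div, inv_pow]
      apply inv_anti₀ (by positivity)
      calc (2 : ℝ) ^ (M q0) ≤ 2 ^ K := pow_le_pow_right₀ (by norm_num) h1
        _ ≤ |(q0 : ℝ)| ^ K := pow_le_pow_left₀ (by norm_num) hq2 K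
    linarith
  have hnat : ((q0.natAbs : ℕ) : ℝ) = |(q0 : ℝ)| := by
    rw [Nat.cast_natAbs, Int.cast_abs]
  have hbig : Q + 2 ≤ q0.natAbs := by
    have : (Q + 2 : ℤ) < (q0.natAbs : ℤ) := by rwa [Int.natCast_natAbs]
    omega
  have hfin : (|(q0 : ℝ)| ^ K)⁻¹ ≤ 1 / |(q0 : ℝ)| ^ N := by
    rw [one_div]
    apply inv_anti₀ (by positivity)
    exact pow_le_pow_right₀ (by linarith) (by omega)
  rcases abs_choice (q0 : ℝ) with h | h
  · refine ⟨q0.natAbs, hbig, p, ?_⟩
    show ‖(q0.natAbs : ℝ) • (fun i => A i 0) - fun i => (p i : ℝ)‖ < _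
    rw [hnat, h]
    rw [h] at hlt hfin
    exact lt_of_lt_of_le hlt hfin
  · refine ⟨q0.natAbs, hbig, fun i => -p i, ?_⟩
    show ‖(q0.natAbs : ℝ) • (fun i => A i 0) - fun i => ((-p i : ℤ) : ℝ)‖ < _
    rw [hnat]
    have h5 : |(q0 : ℝ)| • (fun i => A i 0) - (fun i => ((-p i : ℤ) : ℝ)) =
        -((q0 : ℝ) • (fun i => A i 0) - fun i => (p i : ℝ)) := by
      ext i
      simp [h]
      ring
    rw [h5, norm_neg]
    exact lt_of_lt_of_le hlt hfin

/-- The pairs `(m, n)` with the property are exactly those with `n ≥ 2`, and for them the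
Hausdorff dimension is always at least `1`. -/
theorem result : ∀ m n : ℕ, 1 ≤ m → 1 ≤ n →
    (HasProperty m n ↔ 2 ≤ n) ∧
    (2 ≤ n → ∀ U : Set (Fin m → Fin n → ℝ), IsOpen U → U.Nonempty →
      ∀ f : ℕ → (Fin m → Fin n → ℝ) → (Fin m → Fin n → ℝ),
        (∀ k, ContinuousOn (f k) U) → (∀ k, InjOn (f k) U) → 1 ≤ dimH (E U f)) := by
  intro m n hm hn
  refine ⟨⟨?_, ?_⟩, fun h2 U hU hne f hf hi => main hm h2 hU hne hf hi⟩
  · intro h
    by_contra hlt
    have : n = 1 := by omega
    subst this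
    have h1 := h univ isOpen_univ univ_nonempty (fun _ => id) (fun _ => continuousOn_id)
      (fun _ => injOn_id _)
    rw [dim_one] at h1
    exact lt_irrefl _ h1
  · intro h2 U hU hne f hf hi
    exact lt_of_lt_of_le (by norm_num) (main hm h2 hU hne hf hi)

end Pool.Agent.Results.MP_7a8bd8_nt.PositiveDimension
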